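import Pool.Agent.H64R2.VF.UDisc

/-!
# Infinite definable discrete sets make the theory of `𝔽_p((t))` undecidable

Suppose that some formula defines, for suitable values of its parameters, finite subsets of
`K = 𝔽_p((t))` of unbounded size, or an infinite discrete subset. With the subgroup
`G = {d^p - d + ∑_{0<j<p} t^j c_j^p}`, for which `K = G ⊕ 𝔽_p`, every subset `J` of a finite set
`F ⊆ K` can be coded by two elements `c, C` of `K`: the elements `s` of `F` with
`C / (c - s) ∈ G` are those of `J`. Finite sets of any size together with such codes of their
subsets, of maps between them and of their products interpret the arithmetic of the natural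
numbers in `(K, v_t)`, and `T_p` is undecidable.
-/

namespace Pool.Agent.Results.MP_db9079_lc.DiscreteSets

open Pool.Agent.NPC Pool.Agent.H64R2.VF

/-- If `T_p` is decidable, then for every formula `φ` and variable `x_i` there is a number `N`
such that, for all values `z` of the other variables, the set `{a | φ(a, z)}` has at most `N`
elements if it is discrete. -/
theorem result (p : ℕ) [Fact p.Prime]
    (h : ComputablePred (fun x : List Bool => x ∈ lang (Tp p))) (φ : Fm) (i : ℕ) :
    ∃ N : ℕ, ∀ z : ℕ → LaurentSeries (ZMod p),
      Discr {a | φ.Holds (valRing p) (Function.update z i a)} →
        {a | φ.Holds (valRing p) (Function.update z i a)}.Finite ∧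
        {a | φ.Holds (valRing p) (Function.update z i a)}.ncard ≤ N :=
  uniform_discrete p h φ i

end Pool.Agent.Results.MP_db9079_lc.DiscreteSets
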