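import Pool.Agent.H64R2.VF.Hard

/-!
# The theory of the valued field `𝔽_p((t))` is not elementary recursive

Write `K = 𝔽_p((t))`. The subgroup `G = {d^p - d + ∑_{0<j<p} t^j c_j^p}` of `K` does not contain `1`,
but contains `t^m y^(p^N)` for all `y` whenever `p^N ∤ m`. Hence single elements of `K` code
sequences of length `p^N` of elements of `K`, and can be decoded with the monomials `t^n`, `n < p^N`,
and the `N`-th power of Frobenius. With such sequences one defines the monomials `t^n` for
`n < p^(p^N)` and the `p^N`-th power of Frobenius: a formula of fixed size over the previous ones
gains an exponential. In this way computations of any elementary length are described by short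
sentences.
-/

namespace Pool.Agent.Results.MP_db9079_lc.NonElementary

open Pool.Agent.NPC Pool.Agent.H64R2.VF

/-- For every prime `p`, every language decidable in elementary time reduces in polynomial time
to the theory `T_p` of the valued field `𝔽_p((t))`; so `T_p` is not decidable in elementary
time. -/
theorem result (p : ℕ) [Fact p.Prime] :
    (∀ L : Set (List Bool), InElem L → Reduces L (lang (Tp p))) ∧ ¬ InElem (lang (Tp p)) :=
  ⟨hard_Tp p, not_inElem_Tp p⟩

end Pool.Agent.Results.MP_db9079_lc.NonElementary
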